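import Pool.Agent.TMX.Stmts

/-!
# Row V3 of squad TMX (MP_b61ad0_an)
-/

set_option autoImplicit false

namespace Pool.Agent.TMX.H41

open Finset

/-- the depth of a 5-tuple -/
noncomputable def dep (u : ℕ → ℝ) (p : ℕ × ℕ × ℕ × ℕ × ℕ) : ℝ :=
  min (min (u p.1 - u p.2.1) (u p.2.2.1 - u p.2.1))
    (min (u p.2.2.1 - u p.2.2.2.1) (u p.2.2.2.2 - u p.2.2.2.1))

theorem exists_max_deep (N : ℕ) (u : ℕ → ℝ) (ε₀ : ℝ) (h : Deep N u ε₀) :
    ∃ ε, ε₀ ≤ ε ∧ Deep N u ε ∧ ∀ ε', ε < ε' → ¬ Deep N u ε' := by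
  classical
  set S : Finset (ℕ × ℕ × ℕ × ℕ × ℕ) :=
    ((range (N + 1)) ×ˢ (range (N + 1)) ×ˢ (range (N + 1)) ×ˢ (range (N + 1)) ×ˢ (range (N + 1))).filter
      (fun p => p.1 < p.2.1 ∧ p.2.1 < p.2.2.1 ∧ p.2.2.1 < p.2.2.2.1 ∧ p.2.2.2.1 < p.2.2.2.2) with hS
  have hmem : ∀ a b c d e : ℕ, a < b → b < c → c < d → d < e → e ≤ N → (a, b, c, d, e) ∈ S := by
    intro a b c d e h1 h2 h3 h4 h5
    rw [hS, Finset.mem_filter]
    refine ⟨?_, h1, h2, h3, h4⟩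
    simp only [Finset.mem_product, Finset.mem_range]
    omega
  obtain ⟨a, b, c, d, e, h1, h2, h3, h4, h5, q1, q2, q3, q4⟩ := h
  obtain ⟨m, hm, hmax⟩ := S.exists_max_image (dep u) ⟨_, hmem a b c d e h1 h2 h3 h4 h5⟩
  have hmS := hm
  rw [hS, Finset.mem_filter] at hm
  obtain ⟨hm1, hm2, hm3, hm4, hm5⟩ := hm
  simp only [Finset.mem_product, Finset.mem_range] at hm1
  refine ⟨dep u m, ?_, ⟨m.1, m.2.1, m.2.2.1, m.2.2.2.1, m.2.2.2.2, hm2, hm3, hm4, hm5, by omega, ?_, ?_, ?_, ?_⟩,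
    ?_⟩
  · have := hmax _ (hmem a b c d e h1 h2 h3 h4 h5)
    refine le_trans ?_ this
    exact le_min (le_min q1 q2) (le_min q3 q4)
  · exact le_trans (min_le_left _ _) (min_le_left _ _)
  · exact le_trans (min_le_left _ _) (min_le_right _ _)
  · exact le_trans (min_le_right _ _) (min_le_left _ _)
  · exact le_trans (min_le_right _ _) (min_le_right _ _)
  · rintro ε' hε' ⟨a', b', c', d', e', r1, r2, r3, r4, r5, s1, s2, s3, s4⟩
    have := hmax _ (hmem a' b' c' d' e' r1 r2 r3 r4 r5)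
    have h' : ε' ≤ dep u (a', b', c', d', e') := le_min (le_min s1 s2) (le_min s3 s4)
    linarith

theorem v3 : V3 := by
  intro hBV hDec hHM hHV hExM hTan hMon hCov hBG hGS hGI N g M hM x₁ y₁ x₂ y₂ x₃ a1 a2 a3 a4 a5
  by_cases hd : ∃ ε₀ : ℝ, 0 < ε₀ ∧ Deep N g ε₀
  · obtain ⟨ε₀, hε₀, hdeep⟩ := hd
    obtain ⟨ε, hle, hD, hmax⟩ := exists_max_deep N g ε₀ hdeep
    have hε : 0 < ε := lt_of_lt_of_le hε₀ hle
    obtain ⟨T, hT0, hT1, hT2, hT3, hT4⟩ := hHM N g ε hM.nonneg hε hD hmax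
    obtain ⟨k, w, l, hBi⟩ := hDec.1 N T hT4
    obtain ⟨D, hDm⟩ := hExM.1 N T hT0
    have hb := hBV hTan hMon hCov hBG hGS hGI N T D k w l hDm hBi x₁ y₁ x₂ y₂ x₃ a1 a2 a3 a4 a5
    have hc := hExM.2 N g M T D ε hM hDm hT1
    obtain ⟨p₁, q₁, p₂, q₂, p₃, b1, b2, b3, b4, b5, b6⟩ := hHV N g T ε k w l hε hD hT2 hT3 hBi
    refine ⟨p₁, q₁, p₂, q₂, p₃, b1, b2, b3, b4, b5, ?_⟩
    have e1 := (hc x₁ (by omega)).2
    have e2 := (hc y₁ (by omega)).1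
    have e3 := (hc x₂ (by omega)).2
    have e4 := (hc y₂ (by omega)).1
    have e5 := (hc x₃ (by omega)).2
    linarith
  · have hno : ∀ a b c d e : ℕ, a < b → b < c → c < d → d < e → e ≤ N →
        g b < g a → g b < g c → g d < g c → g d < g e → False := by
      intro a b c d e h1 h2 h3 h4 h5 r1 r2 r3 r4
      apply hd
      refine ⟨dep g (a, b, c, d, e), ?_, a, b, c, d, e, h1, h2, h3, h4, h5, ?_, ?_, ?_, ?_⟩
      · exact lt_min (lt_min (by simpa using r1) (by simpa using r2))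
          (lt_min (by simpa using r3) (by simpa using r4))
      · exact le_trans (min_le_left _ _) (min_le_left _ _)
      · exact le_trans (min_le_left _ _) (min_le_right _ _)
      · exact le_trans (min_le_right _ _) (min_le_left _ _)
      · exact le_trans (min_le_right _ _) (min_le_right _ _)
    obtain ⟨k, w, l, hBi⟩ := hDec.1 N g hno
    have hb := hBV hTan hMon hCov hBG hGS hGI N g M k w l hM hBi x₁ y₁ x₂ y₂ x₃ a1 a2 a3 a4 a5
    refine ⟨k, w, l, l, l, hBi.kw, hBi.wl, le_rfl, le_rfl, hBi.lN, ?_⟩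
    linarith

end Pool.Agent.TMX.H41
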